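import Pool.Agent.Helper46.WP.St
import Pool.Agent.Helper71.W.CLO

/-!
# Lemma W in dimension `g + k`, module CLOP: pairs of cells
-/

set_option autoImplicit false

namespace Pool.Agent.Helper46.WP

open Finset Pool.Agent.Helper69.RK Pool.Agent.Helper46.WF
open Pool.Agent.Helper61.GL hiding fl
open Pool.Agent.Helper92.W (fl srp DL ST_K clo_gibbs clo_tel cp_nn cp_supp cp_fst cp_snd cp_ind cp_CH1 cp_CH2
  cp_sum2 cp_mass clo_DL clo_DL_congr clo_Pw clo_EQ)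

/-! ### information between `X` and another variable along the levels -/

section info

variable {Ω α β : Type} [Fintype Ω] {p : ℕ}

/-- `I(X; W | X_l)` -/
noncomputable def IA (μ : Ω → ℝ) (X : Ω → Fin p → ℝ) (W : Ω → α) (l : ℕ) : ℝ :=
  CH μ X (fun ω => cel l (X ω)) - CH μ X (fun ω => (W ω, cel l (X ω)))

theorem clo_cel_ref {l l' : ℕ} (h : l ≤ l') {y y' : Fin p → ℝ} (e : cel l' y = cel l' y') :
    cel l y = cel l y' := by
  funext i
  exact Pool.Agent.Helper61.GL.fl_ref h (congrFun e i)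

theorem IA_nonneg (μ : Ω → ℝ) (hμ : ∀ ω, 0 ≤ μ ω) (X : Ω → Fin p → ℝ) (W : Ω → α) (l : ℕ) :
    0 ≤ IA μ X W l := by
  unfold IA
  have := ch_cond μ hμ X (fun ω => cel l (X ω)) (fun ω => (W ω, cel l (X ω)))
    (fun ω ω' _ _ h => (Prod.ext_iff.1 h).2)
  linarith

theorem IA_le (μ : Ω → ℝ) (hμ : ∀ ω, 0 ≤ μ ω) (X : Ω → Fin p → ℝ) (W : Ω → α) (l : ℕ) :
    IA μ X W l ≤ Hh μ X - CH μ X W := by
  unfold IA Hh
  have h1 := ch_chain μ (fun ω => cel l (X ω)) X (fun _ => ())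
  have h2 := ch_chain μ (fun ω => cel l (X ω)) X W
  have h3 : CH μ (fun ω => (cel l (X ω), X ω)) (fun _ => ()) = CH μ X (fun _ => ()) := by
    apply ch_congr_left
    intro ω ω' _ _ _
    rw [Prod.mk.injEq]
    exact ⟨fun e => e.2, fun e => ⟨by rw [e], e⟩⟩
  have h4 : CH μ (fun ω => (cel l (X ω), X ω)) W = CH μ X W := by
    apply ch_congr_left
    intro ω ω' _ _ _
    rw [Prod.mk.injEq]
    exact ⟨fun e => e.2, fun e => ⟨by rw [e], e⟩⟩
  have h5 : CH μ X (fun ω => (cel l (X ω), ())) = CH μ X (fun ω => cel l (X ω)) := by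
    apply ch_congr_right
    intro ω ω' _ _
    rw [Prod.mk.injEq]
    exact ⟨fun e => e.1, fun e => ⟨e, rfl⟩⟩
  have h6 : CH μ X (fun ω => (cel l (X ω), W ω)) = CH μ X (fun ω => (W ω, cel l (X ω))) := by
    apply ch_congr_right
    intro ω ω' _ _
    rw [Prod.mk.injEq, Prod.mk.injEq]
    exact and_comm
  have h7 : CH μ (fun ω => cel l (X ω)) W ≤ CH μ (fun ω => cel l (X ω)) (fun _ => ()) :=
    ch_cond μ hμ _ _ _ (fun _ _ _ _ _ => rfl)
  linarith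

theorem IA_diff (μ : Ω → ℝ) (X : Ω → Fin p → ℝ) (W : Ω → α) (l m : ℕ) :
    CH μ (fun ω => cel (l + m) (X ω)) (fun ω => cel l (X ω)) -
      CH μ (fun ω => cel (l + m) (X ω)) (fun ω => (W ω, cel l (X ω))) =
        IA μ X W l - IA μ X W (l + m) := by
  unfold IA
  have h1 := ch_chain μ (fun ω => cel (l + m) (X ω)) X (fun ω => cel l (X ω))
  have h2 := ch_chain μ (fun ω => cel (l + m) (X ω)) X (fun ω => (W ω, cel l (X ω)))
  have h3 : CH μ (fun ω => (cel (l + m) (X ω), X ω)) (fun ω => cel l (X ω))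
      = CH μ X (fun ω => cel l (X ω)) := by
    apply ch_congr_left
    intro ω ω' _ _ _
    rw [Prod.mk.injEq]
    exact ⟨fun e => e.2, fun e => ⟨by rw [e], e⟩⟩
  have h4 : CH μ (fun ω => (cel (l + m) (X ω), X ω)) (fun ω => (W ω, cel l (X ω)))
      = CH μ X (fun ω => (W ω, cel l (X ω))) := by
    apply ch_congr_left
    intro ω ω' _ _ _
    rw [Prod.mk.injEq]
    exact ⟨fun e => e.2, fun e => ⟨by rw [e], e⟩⟩
  have h5 : CH μ X (fun ω => (cel (l + m) (X ω), cel l (X ω)))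
      = CH μ X (fun ω => cel (l + m) (X ω)) := by
    apply ch_congr_right
    intro ω ω' _ _
    rw [Prod.mk.injEq]
    exact ⟨fun e => e.1, fun e => ⟨e, clo_cel_ref (Nat.le_add_right l m) e⟩⟩
  have h6 : CH μ X (fun ω => (cel (l + m) (X ω), (W ω, cel l (X ω))))
      = CH μ X (fun ω => (W ω, cel (l + m) (X ω))) := by
    apply ch_congr_right
    intro ω ω' _ _
    rw [Prod.mk.injEq, Prod.mk.injEq, Prod.mk.injEq]
    exact ⟨fun e => ⟨e.2.1, e.1⟩,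
      fun e => ⟨e.2, e.1, clo_cel_ref (Nat.le_add_right l m) e.2⟩⟩
  linarith

theorem IA_anti (μ : Ω → ℝ) (hμ : ∀ ω, 0 ≤ μ ω) (X : Ω → Fin p → ℝ) (W : Ω → α) (l m : ℕ) :
    0 ≤ IA μ X W l - IA μ X W (l + m) := by
  rw [← IA_diff]
  have := ch_cond μ hμ (fun ω => cel (l + m) (X ω)) (fun ω => cel l (X ω))
    (fun ω => (W ω, cel l (X ω))) (fun ω ω' _ _ h => (Prod.ext_iff.1 h).2)
  linarith

/-- information from the hypotheses -/
theorem clo_info (μ : Ω → ℝ) (hμ : ∀ ω, 0 ≤ μ ω) (X Y : Ω → Fin p → ℝ) (V : Ω → α) {t1 t2 : ℝ}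
    (h1 : Hh μ V ≤ CH μ V (fun ω => (X ω, Y ω)) + t1) (h2 : Hh μ X ≤ CH μ X Y + t2) :
    Hh μ X - CH μ X (fun ω => (V ω, Y ω)) ≤ t1 + t2 := by
  have h3 := ch_symm μ X V Y
  have h4 : CH μ V Y ≤ Hh μ V := ch_cond μ hμ _ _ _ (fun _ _ _ _ _ => rfl)
  linarith

end info

/-! ### non-atomicity -/

section naP

variable {Ω : Type} [Fintype Ω] {p : ℕ}

/-- sum norm -/
def nP1 (v : Fin p → ℝ) : ℝ := ∑ i, |v i|

theorem nP1_swap (v u : Fin p → ℝ) : nP1 (v - u) = nP1 (u - v) := by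
  unfold nP1
  refine Finset.sum_congr rfl fun i _ => ?_
  rw [Pi.sub_apply, Pi.sub_apply, abs_sub_comm]

theorem dp_sq {θ W : Fin p → ℝ} (h : ∀ i, 0 ≤ θ i ∧ θ i ≤ 1) : |dp θ W| ≤ nP1 W := by
  unfold dp nP1
  refine (Finset.abs_sum_le_sum_abs _ _).trans (Finset.sum_le_sum fun i _ => ?_)
  rw [abs_mul, abs_of_nonneg (h i).1]
  calc θ i * |W i| ≤ 1 * |W i| := mul_le_mul_of_nonneg_right (h i).2 (abs_nonneg _)
    _ = |W i| := one_mul _

theorem clo_na_le (w : Ω → ℝ) (hw : ∀ ω, 0 ≤ w ω) (V : Ω → Fin p → ℝ)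
    (hV : ∀ ω, w ω ≠ 0 → ∀ i, 0 ≤ V ω i ∧ V ω i ≤ 1) {U U' : Fin p → ℝ} {r r' : ℝ}
    (h : r' + nP1 (U - U') ≤ r) : naP w V r U ≤ naP w V r' U' := by
  obtain ⟨c, -, h2⟩ := naP_attained w V r' U'
  rw [h2]
  refine (naP_le w V r U c).trans (Pw_mono w hw fun ω h0 h3 => ?_)
  have h4 := dp_sq (θ := V ω) (W := U - U') (hV ω h0)
  have h5 : dp (V ω) U - c = (dp (V ω) U' - c) + dp (V ω) (U - U') := by
    rw [dp_sub_right]
    ring
  rw [h5] at h3
  have h6 := abs_add_le (dp (V ω) U' - c) (dp (V ω) (U - U'))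
  linarith

/-- rounded difference -/
noncomputable def Uo (m : ℕ) (k q : Fin p → ℤ) : Fin p → ℝ := fun i => ((k i : ℝ) - q i) / 2 ^ m

theorem clo_Uo (l m : ℕ) {x x' : Fin p → ℝ} (h : cel l x = cel l x') :
    nP1 ((frP l x - frP l x') - Uo m (cel (l + m) x) (cel (l + m) x')) ≤ p * (1 / 2) ^ m := by
  have hm : (0 : ℝ) < 2 ^ m := by positivity
  have key : ∀ i, |((frP l x - frP l x') - Uo m (cel (l + m) x) (cel (l + m) x')) i| ≤ (1 / 2) ^ m := by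
    intro i
    have h1 : ⌊(2 : ℝ) ^ l * x i⌋ = ⌊(2 : ℝ) ^ l * x' i⌋ := congrFun h i
    simp only [Pi.sub_apply, frP, Uo, cel, Int.fract]
    rw [h1, pow_add]
    have a1 := Int.floor_le ((2 : ℝ) ^ l * 2 ^ m * x i)
    have a2 := (Int.lt_floor_add_one ((2 : ℝ) ^ l * 2 ^ m * x i)).le
    have a3 := Int.floor_le ((2 : ℝ) ^ l * 2 ^ m * x' i)
    have a4 := (Int.lt_floor_add_one ((2 : ℝ) ^ l * 2 ^ m * x' i)).le
    generalize hk : ((⌊(2 : ℝ) ^ l * 2 ^ m * x i⌋ : ℤ) : ℝ) = k at a1 a2 ⊢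
    generalize hk' : ((⌊(2 : ℝ) ^ l * 2 ^ m * x' i⌋ : ℤ) : ℝ) = k' at a3 a4 ⊢
    have e1 : ((2 : ℝ) ^ l * x i - ⌊(2 : ℝ) ^ l * x' i⌋ - (2 ^ l * x' i - ⌊(2 : ℝ) ^ l * x' i⌋)
        - (k - k') / 2 ^ m) = ((2 ^ l * 2 ^ m * x i - k) - (2 ^ l * 2 ^ m * x' i - k')) / 2 ^ m := by
      field_simp
      ring
    rw [e1, abs_div, abs_of_pos hm, one_div, inv_pow, ← one_div]
    refine div_le_div_of_nonneg_right ?_ hm.le
    rw [abs_le]
    constructor <;> linarith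
  unfold nP1
  refine (Finset.sum_le_sum fun i _ => key i).trans (le_of_eq ?_)
  rw [Finset.sum_const, Finset.card_univ, Fintype.card_fin, nsmul_eq_mul]

theorem clo_fr01 (l : ℕ) (x : Fin p → ℝ) (i : Fin p) : 0 ≤ frP l x i ∧ frP l x i ≤ 1 :=
  ⟨Int.fract_nonneg _, (Int.fract_lt_one _).le⟩

/-- the non-atomicity in terms of the bilinear function -/
theorem clo_ev (l j s ρ T : ℕ) (hT : T = s + l + ρ + 1) {x x' y y0 : Fin p → ℝ}
    (hx : cel l x = cel l x') (hy : cel j y = cel j y0) (t : ℝ) :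
    (1 / 2 : ℝ) ^ (j + T) < |dp (x - x') y / 2 ^ s - t| ↔
      (1 / 2 : ℝ) ^ (ρ + 1) < |dp (frP j y) (frP l x - frP l x') -
        (2 ^ (s + l + j) * t - dp (ivP (cel j y0)) (frP l x - frP l x'))| := by
  have h1 : frP l x - frP l x' = (2 : ℝ) ^ l • (x - x') := by
    funext i
    have h1 : ⌊(2 : ℝ) ^ l * x i⌋ = ⌊(2 : ℝ) ^ l * x' i⌋ := congrFun hx i
    simp only [Pi.sub_apply, Pi.smul_apply, smul_eq_mul, frP, Int.fract]
    rw [h1]
    ring
  have h2 : frP j y = (2 : ℝ) ^ j • y - ivP (cel j y0) := by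
    funext i
    have h1 : ⌊(2 : ℝ) ^ j * y i⌋ = ⌊(2 : ℝ) ^ j * y0 i⌋ := congrFun hy i
    simp only [Pi.sub_apply, Pi.smul_apply, smul_eq_mul, frP, Int.fract, ivP, cel]
    rw [h1]
  have e1 : dp (frP j y) (frP l x - frP l x') -
        (2 ^ (s + l + j) * t - dp (ivP (cel j y0)) (frP l x - frP l x'))
        = 2 ^ (s + l + j) * (dp (x - x') y / 2 ^ s - t) := by
    rw [h2, h1, dp_sub_left, dp_smul_left, dp_smul_right, dp_comm y (x - x'), pow_add, pow_add]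
    field_simp
    ring
  have hp : (0 : ℝ) < 2 ^ (s + l + j) := by positivity
  rw [e1, abs_mul, abs_of_pos hp]
  have e2 : (1 / 2 : ℝ) ^ (ρ + 1) = 2 ^ (s + l + j) * (1 / 2) ^ (j + T) := by
    rw [show j + T = (s + l + j) + (ρ + 1) by omega, pow_add (1 / 2 : ℝ) (s + l + j), ← mul_assoc,
      ← mul_pow]
    norm_num
  rw [e2]
  constructor
  · intro h
    exact mul_lt_mul_of_pos_left h hp
  · intro h
    exact lt_of_mul_lt_mul_left h hp.le

end naP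

/-! ### the copy space -/

section copy

variable {Ω α β γ : Type} [Fintype Ω] {p : ℕ}

/-- key of the copies -/
noncomputable def cG (n s l : ℕ) (z : Ω → ℝ) (X Y : Ω → Fin p → ℝ) (ω : Ω) :
    ℤ × (Fin p → ℝ) × (Fin p → ℤ) := (fl n (z ω + dp (X ω) (Y ω) / 2 ^ s), Y ω, cel l (X ω))

omit [Fintype Ω] in
theorem cG_eq {n s l : ℕ} {z : Ω → ℝ} {X Y : Ω → Fin p → ℝ} {ω ω' : Ω}
    (h : cG n s l z X Y ω = cG n s l z X Y ω') :
    fl n (z ω + dp (X ω) (Y ω) / 2 ^ s) = fl n (z ω' + dp (X ω') (Y ω') / 2 ^ s) ∧ Y ω = Y ω' ∧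
      cel l (X ω) = cel l (X ω') := by
  unfold cG at h
  rw [Prod.mk.injEq, Prod.mk.injEq] at h
  exact h

theorem clo_cG (n s l : ℕ) (μ : Ω → ℝ) (z : Ω → ℝ) (X Y : Ω → Fin p → ℝ) (f : Ω → α) :
    CH μ f (cG n s l z X Y) =
      CH μ f (fun ω => ((fl n (z ω + dp (X ω) (Y ω) / 2 ^ s), Y ω), cel l (X ω))) := by
  apply ch_congr_right
  intro ω ω' _ _
  unfold cG
  rw [Prod.mk.injEq, Prod.mk.injEq, Prod.mk.injEq, Prod.mk.injEq]
  exact and_assoc.symm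

/-- total correlation in the copy space -/
theorem clo_tc (n s l : ℕ) (μ : Ω → ℝ) (hμ : ∀ ω, 0 ≤ μ ω) (z : Ω → ℝ) (X Y : Ω → Fin p → ℝ) {t : ℝ}
    (i1 : Hh μ (fun ω => fl n (z ω)) ≤ CH μ (fun ω => fl n (z ω)) (fun ω => (X ω, Y ω)) + t)
    (i2 : Hh μ (fun ω => fl n (z ω + dp (X ω) (Y ω) / 2 ^ s)) ≤
      CH μ (fun ω => fl n (z ω + dp (X ω) (Y ω) / 2 ^ s)) (fun ω => (X ω, Y ω)) + t)
    (i3 : Hh μ X ≤ CH μ X Y + t) :
    Hh (cop2 μ (cG n s l z X Y)) (fun w => fl n (z w.2)) +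
      Hh (cop2 μ (cG n s l z X Y)) (fun w => (X w.2, X w.1)) +
      Hh (cop2 μ (cG n s l z X Y)) (fun w => Y w.2) ≤
      Hh (cop2 μ (cG n s l z X Y)) (fun w => (fl n (z w.2), (X w.2, X w.1), Y w.2)) + 4 * t := by
  set G := cG n s l z X Y with hG
  set μ' := cop2 μ G with hμ'
  have nn : ∀ w, 0 ≤ μ' w := cp_nn μ hμ G
  have a1 : Hh μ' (fun w => fl n (z w.2)) = Hh μ (fun ω => fl n (z ω)) :=
    cp_CH2 μ hμ G (fun ω => fl n (z ω)) (fun _ => ())
  have a3 : Hh μ' (fun w => Y w.2) = Hh μ Y := cp_CH2 μ hμ G Y (fun _ => ())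
  have a2 : Hh μ' (fun w => (X w.2, X w.1)) ≤ Hh μ X + CH μ X (fun ω => cel l (X ω)) := by
    have b1 := ch_chain μ' (fun w => X w.2) (fun w => X w.1) (fun _ => ())
    have b2 : CH μ' (fun w => X w.2) (fun _ => ()) = Hh μ X := cp_CH2 μ hμ G X (fun _ => ())
    have b3 : CH μ' (fun w => X w.1) (fun w => (X w.2, ())) ≤
        CH μ' (fun w => X w.1) (fun w => cel l (X w.1)) := by
      apply ch_cond μ' nn
      intro w w' h h' e
      have e1 := (Prod.ext_iff.1 e).1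
      have c1 := (cG_eq (cp_supp μ hμ G h).1).2.2
      have c2 := (cG_eq (cp_supp μ hμ G h').1).2.2
      have e2 : X w.2 = X w'.2 := e1
      rw [c1, c2, e2]
    have b4 : CH μ' (fun w => X w.1) (fun w => cel l (X w.1)) = CH μ X (fun ω => cel l (X ω)) :=
      cp_CH1 μ hμ G X (fun ω => cel l (X ω))
    unfold Hh at b2 ⊢
    linarith
  have a4 : Hh μ (fun ω => ((Y ω, X ω), fl n (z ω))) + CH μ X G ≤
      Hh μ' (fun w => (fl n (z w.2), (X w.2, X w.1), Y w.2)) := by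
    have b1 : Hh μ' (fun w => (fl n (z w.2), (X w.2, X w.1), Y w.2)) =
        CH μ' (fun w => (((Y w.2, X w.2), fl n (z w.2)), X w.1)) (fun _ => ()) := by
      apply ch_congr_left
      intro w w' _ _ _
      simp only [Prod.mk.injEq]
      tauto
    rw [b1, ch_chain μ' (fun w => ((Y w.2, X w.2), fl n (z w.2))) (fun w => X w.1) (fun _ => ())]
    have b2 : CH μ' (fun w => ((Y w.2, X w.2), fl n (z w.2))) (fun _ => ()) =
        Hh μ (fun ω => ((Y ω, X ω), fl n (z ω))) :=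
      cp_CH2 μ hμ G (fun ω => ((Y ω, X ω), fl n (z ω))) (fun _ => ())
    have b3 := cp_ind μ hμ G X (fun ω => ω)
    have b4 : CH μ' (fun w => X w.1) (fun w => (w.2, G w.1)) ≤
        CH μ' (fun w => X w.1) (fun w => (((Y w.2, X w.2), fl n (z w.2)), ())) := by
      apply ch_cond μ' nn
      intro w w' _ _ e
      have e1 : w.2 = w'.2 := (Prod.ext_iff.1 e).1
      rw [e1]
    rw [b2]
    linarith
  have a5 : Hh μ (fun ω => ((Y ω, X ω), fl n (z ω))) =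
      Hh μ Y + CH μ X Y + CH μ (fun ω => fl n (z ω)) (fun ω => (X ω, Y ω)) := by
    have b1 := ch_chain μ (fun ω => (Y ω, X ω)) (fun ω => fl n (z ω)) (fun _ => ())
    have b2 := ch_chain μ Y X (fun _ => ())
    have b3 : CH μ X (fun ω => (Y ω, ())) = CH μ X Y := by
      apply ch_congr_right
      intro ω ω' _ _
      simp only [Prod.mk.injEq, and_true]
    have b4 : CH μ (fun ω => fl n (z ω)) (fun ω => ((Y ω, X ω), ())) =
        CH μ (fun ω => fl n (z ω)) (fun ω => (X ω, Y ω)) := by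
      apply ch_congr_right
      intro ω ω' _ _
      simp only [Prod.mk.injEq, and_true]
      exact and_comm
    unfold Hh
    linarith
  have a6 := IA_le μ hμ X (fun ω => (fl n (z ω + dp (X ω) (Y ω) / 2 ^ s), Y ω)) l
  have a7 := clo_info μ hμ X Y _ i2 i3
  have a8 := clo_cG n s l μ z X Y X
  unfold IA at a6
  rw [← hG] at a8
  linarith

/-- absorption in the copy space -/
theorem clo_abs (n s l : ℕ) (μ : Ω → ℝ) (hμ : ∀ ω, 0 ≤ μ ω) (hm : mass μ = 1) (z : Ω → ℝ)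
    (X Y : Ω → Fin p → ℝ) :
    CH (cop2 μ (cG n s l z X Y)) (fun w => fl n (z w.2 + dp (X w.2 - X w.1) (Y w.2) / 2 ^ s))
      (fun w => (X w.2, X w.1)) ≤ Hh μ (fun ω => fl n (z ω)) + 3 := by
  set G := cG n s l z X Y with hG
  set μ' := cop2 μ G with hμ'
  have nn : ∀ w, 0 ≤ μ' w := cp_nn μ hμ G
  have h1 : CH μ' (fun w => fl n (z w.2 + dp (X w.2 - X w.1) (Y w.2) / 2 ^ s))
      (fun w => (X w.2, X w.1)) ≤
      CH μ' (fun w => fl n (z w.2 + dp (X w.2 - X w.1) (Y w.2) / 2 ^ s)) (fun _ => ()) :=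
    ch_cond μ' nn _ _ _ (fun _ _ _ _ _ => rfl)
  have h2 := ch_tri μ' nn (fun w => fl n (z w.2 + dp (X w.2 - X w.1) (Y w.2) / 2 ^ s))
    (fun w => fl n (z w.1)) (fun _ => ())
  have h3 : CH μ' (fun w => fl n (z w.1)) (fun _ => ()) = Hh μ (fun ω => fl n (z ω)) :=
    cp_CH1 μ hμ G (fun ω => fl n (z ω)) (fun _ => ())
  have key : ∀ w, μ' w ≠ 0 →
      |(2 : ℝ) ^ n * (z w.2 + dp (X w.2 - X w.1) (Y w.2) / 2 ^ s) - 2 ^ n * z w.1| ≤ 1 := by
    intro w h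
    obtain ⟨c1, c2, -⟩ := cG_eq (cp_supp μ hμ G h).1
    have c3 := floor_eq_near c1
    have e1 : (2 : ℝ) ^ n * (z w.2 + dp (X w.2 - X w.1) (Y w.2) / 2 ^ s) - 2 ^ n * z w.1 =
        -(2 ^ n * (z w.1 + dp (X w.1) (Y w.1) / 2 ^ s) -
          2 ^ n * (z w.2 + dp (X w.2) (Y w.2) / 2 ^ s)) := by
      rw [dp_sub_left, c2]
      ring
    rw [e1, abs_neg]
    exact c3
  have h4 := ch_int3 μ' nn (fun w => fl n (z w.2 + dp (X w.2 - X w.1) (Y w.2) / 2 ^ s))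
    (fun w => (fl n (z w.1), ())) (fun w w' h h' e => by
      have e1 : fl n (z w.1) = fl n (z w'.1) := (Prod.ext_iff.1 e).1
      have c1 := floor_eq_near e1
      have c2 := key w h
      have c3 := key w' h'
      have c4 := floor_near ((2 : ℝ) ^ n * (z w.2 + dp (X w.2 - X w.1) (Y w.2) / 2 ^ s))
        ((2 : ℝ) ^ n * (z w'.2 + dp (X w'.2 - X w'.1) (Y w'.2) / 2 ^ s))
      have c5 : (2 : ℝ) ^ n * (z w.2 + dp (X w.2 - X w.1) (Y w.2) / 2 ^ s) -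
          (2 : ℝ) ^ n * (z w'.2 + dp (X w'.2 - X w'.1) (Y w'.2) / 2 ^ s) =
          ((2 : ℝ) ^ n * (z w.2 + dp (X w.2 - X w.1) (Y w.2) / 2 ^ s) - 2 ^ n * z w.1)
          + ((2 : ℝ) ^ n * z w.1 - 2 ^ n * z w'.1) -
          ((2 : ℝ) ^ n * (z w'.2 + dp (X w'.2 - X w'.1) (Y w'.2) / 2 ^ s) - 2 ^ n * z w'.1) := by
        ring
      have t1 := abs_sub (((2 : ℝ) ^ n * (z w.2 + dp (X w.2 - X w.1) (Y w.2) / 2 ^ s)
        - 2 ^ n * z w.1) + ((2 : ℝ) ^ n * z w.1 - 2 ^ n * z w'.1))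
        ((2 : ℝ) ^ n * (z w'.2 + dp (X w'.2 - X w'.1) (Y w'.2) / 2 ^ s) - 2 ^ n * z w'.1)
      have t2 := abs_add_le ((2 : ℝ) ^ n * (z w.2 + dp (X w.2 - X w.1) (Y w.2) / 2 ^ s)
        - 2 ^ n * z w.1) ((2 : ℝ) ^ n * z w.1 - 2 ^ n * z w'.1)
      rw [← c5] at t1
      unfold fl
      linarith)
  have h5 : mass μ' = 1 := by rw [hμ', cp_mass μ hμ G, hm]
  rw [h5] at h4
  linarith

end copy

/-! ### one pair of levels -/

section one

variable {Ω : Type} [Fintype Ω] {p : ℕ}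

/-- the event of LEMMA K in the copy space -/
def KE (μ' : Ω × Ω → ℝ) (z : Ω → ℝ) (X Y : Ω → Fin p → ℝ) (c a : ℝ) (R s j T : ℕ)
    (w : Ω × Ω) : Prop :=
  DL μ' (fun w => z w.2) c R (j + T) w ∧ ∀ x : ℝ, a ≤ Pw (cw μ' (fun w' => cel j (Y w'.2)) w)
    (fun w' => (1 / 2) ^ (j + T) < |dp (X w.2 - X w.1) (Y w'.2) / 2 ^ s - x|)

/-- the variables of the comparison -/
noncomputable def cD (X : Ω → Fin p → ℝ) (k : ℕ) (i : Fin 2) (w : Ω × Ω) : Fin p → ℤ :=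
  if i = 0 then cel k (X w.2) else cel k (X w.1)

/-- the total correlation of the comparison -/
theorem clo_TC (n s l m : ℕ) (μ : Ω → ℝ) (hμ : ∀ ω, 0 ≤ μ ω) (z : Ω → ℝ) (X Y : Ω → Fin p → ℝ)
    (E : Ω → Prop) (j : ℕ) (hE : ∀ ω ω', fl n (z ω) = fl n (z ω') → E ω = E ω') :
    TC (cop2 μ (cG n s l z X Y)) (cD X (l + m))
      (fun w => ((E w.2, lwP μ Y j w.2, cel l (X w.2)) : Prop × (Ω → ℝ) × (Fin p → ℤ)))
      (fun _ g => g.2.2) ≤
      (IA μ X (fun ω => (fl n (z ω), Y ω)) l - IA μ X (fun ω => (fl n (z ω), Y ω)) (l + m)) +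
      (IA μ X (fun ω => (fl n (z ω + dp (X ω) (Y ω) / 2 ^ s), Y ω)) l -
        IA μ X (fun ω => (fl n (z ω + dp (X ω) (Y ω) / 2 ^ s), Y ω)) (l + m)) := by
  set G := cG n s l z X Y with hG
  set μ' := cop2 μ G with hμ'
  have nn : ∀ w, 0 ≤ μ' w := cp_nn μ hμ G
  unfold TC
  rw [Fin.sum_univ_two]
  have a0 : CH μ' (cD X (l + m) 0) (hg (fun _ (g : Prop × (Ω → ℝ) × (Fin p → ℤ)) => g.2.2)
      (fun w => (E w.2, lwP μ Y j w.2, cel l (X w.2))) (0 : Fin 2)) =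
      CH μ (fun ω => cel (l + m) (X ω)) (fun ω => cel l (X ω)) :=
    cp_CH2 μ hμ G (fun ω => cel (l + m) (X ω)) (fun ω => cel l (X ω))
  have a1 : CH μ' (cD X (l + m) 1) (hg (fun _ (g : Prop × (Ω → ℝ) × (Fin p → ℤ)) => g.2.2)
      (fun w => (E w.2, lwP μ Y j w.2, cel l (X w.2))) (1 : Fin 2)) =
      CH μ (fun ω => cel (l + m) (X ω)) (fun ω => cel l (X ω)) := by
    rw [← cp_CH1 μ hμ G (fun ω => cel (l + m) (X ω)) (fun ω => cel l (X ω))]
    have b1 : cD X (l + m) 1 = fun w => cel (l + m) (X w.1) := by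
      funext w
      unfold cD
      rw [if_neg (by decide)]
    rw [b1]
    apply ch_congr_right
    intro w w' h h'
    have c1 := (cG_eq (cp_supp μ hμ G h).1).2.2
    have c2 := (cG_eq (cp_supp μ hμ G h').1).2.2
    change cel l (X w.2) = cel l (X w'.2) ↔ _
    rw [c1, c2]
  have a2 : CH μ (fun ω => cel (l + m) (X ω)) (fun ω => ((fl n (z ω), Y ω), cel l (X ω))) +
      CH μ (fun ω => cel (l + m) (X ω)) G ≤
      CH μ' (fun w => fun i => cD X (l + m) i w) (fun w => ((E w.2, lwP μ Y j w.2, cel l (X w.2)) :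
        Prop × (Ω → ℝ) × (Fin p → ℤ))) := by
    have b1 : CH μ' (fun w => fun i => cD X (l + m) i w)
        (fun w => ((fl n (z w.2), Y w.2), cel l (X w.2))) ≤
        CH μ' (fun w => fun i => cD X (l + m) i w) (fun w => ((E w.2, lwP μ Y j w.2, cel l (X w.2)) :
          Prop × (Ω → ℝ) × (Fin p → ℤ))) := by
      apply ch_cond μ' nn
      intro w w' _ _ e
      simp only [Prod.mk.injEq] at e
      simp only [Prod.mk.injEq]
      refine ⟨hE _ _ e.1.1, ?_, e.2⟩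
      funext ω'
      exact cw_congr μ _ (by rw [e.1.2]) ω'
    have b2 : CH μ' (fun w => fun i => cD X (l + m) i w)
        (fun w => ((fl n (z w.2), Y w.2), cel l (X w.2))) =
        CH μ' (fun w => (cel (l + m) (X w.2), cel (l + m) (X w.1)))
          (fun w => ((fl n (z w.2), Y w.2), cel l (X w.2))) := by
      apply ch_congr_left
      intro w w' _ _ _
      rw [Prod.mk.injEq]
      constructor
      · intro e
        have e0 := congrFun e 0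
        have e1 := congrFun e 1
        unfold cD at e0 e1
        rw [if_pos rfl, if_pos rfl] at e0
        rw [if_neg (by decide), if_neg (by decide)] at e1
        exact ⟨e0, e1⟩
      · intro e
        funext i
        unfold cD
        rw [e.1, e.2]
    have b3 := ch_chain μ' (fun w => cel (l + m) (X w.2)) (fun w => cel (l + m) (X w.1))
      (fun w => ((fl n (z w.2), Y w.2), cel l (X w.2)))
    have b4 : CH μ' (fun w => cel (l + m) (X w.2)) (fun w => ((fl n (z w.2), Y w.2), cel l (X w.2)))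
        = CH μ (fun ω => cel (l + m) (X ω)) (fun ω => ((fl n (z ω), Y ω), cel l (X ω))) :=
      cp_CH2 μ hμ G (fun ω => cel (l + m) (X ω)) (fun ω => ((fl n (z ω), Y ω), cel l (X ω)))
    have b5 := cp_ind μ hμ G (fun ω => cel (l + m) (X ω)) (fun ω => ω)
    have b6 : CH μ' (fun w => cel (l + m) (X w.1)) (fun w => (w.2, G w.1)) ≤
        CH μ' (fun w => cel (l + m) (X w.1))
          (fun w => (cel (l + m) (X w.2), ((fl n (z w.2), Y w.2), cel l (X w.2)))) := by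
      apply ch_cond μ' nn
      intro w w' _ _ e
      have e1 : w.2 = w'.2 := (Prod.ext_iff.1 e).1
      rw [e1]
    linarith
  have a3 := IA_diff μ X (fun ω => (fl n (z ω), Y ω)) l m
  have a4 := IA_diff μ X (fun ω => (fl n (z ω + dp (X ω) (Y ω) / 2 ^ s), Y ω)) l m
  have a5 := clo_cG n s l μ z X Y (fun ω => cel (l + m) (X ω))
  rw [← hG] at a5
  rw [a0, a1, ← a3, ← a4]
  linarith

open Classical in
theorem clo_one (n s l j ρ R : ℕ) (c a : ℝ) (μ : Ω → ℝ) (hμ : ∀ ω, 0 ≤ μ ω) (hm : mass μ = 1)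
    (z : Ω → ℝ) (X Y : Ω → Fin p → ℝ) (ha : 0 ≤ a) (hj : j + (s + l + ρ + 1) ≤ n) :
    ∑ ω, μ ω * (if DL μ z c R (j + (s + l + ρ + 1)) ω then slP μ Y X j l ρ ω else 0) ≤
      (8 / 5) * (a + Pw (cop2 μ (cG n s l z X Y)) (KE (cop2 μ (cG n s l z X Y)) z X Y c a R s j
          (s + l + ρ + 1)) +
      ((IA μ X (fun ω => (fl n (z ω), Y ω)) l - IA μ X (fun ω => (fl n (z ω), Y ω)) (l + (ρ + 4 + p))) +
      (IA μ X (fun ω => (fl n (z ω + dp (X ω) (Y ω) / 2 ^ s), Y ω)) l -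
        IA μ X (fun ω => (fl n (z ω + dp (X ω) (Y ω) / 2 ^ s), Y ω)) (l + (ρ + 4 + p))))) := by
  obtain ⟨T, hT⟩ : ∃ T, T = s + l + ρ + 1 := ⟨_, rfl⟩
  rw [← hT] at hj ⊢
  set G := cG n s l z X Y with hG
  set μ' := cop2 μ G with hμ'
  have nn : ∀ w, 0 ≤ μ' w := cp_nn μ hμ G
  have hm' : ∑ w, μ' w = 1 := (cp_mass μ hμ G).trans hm
  have hr0 : (0 : ℝ) < (1 / 2) ^ ρ := by positivity
  obtain ⟨r1, hr1⟩ : ∃ r1 : ℝ, r1 = 3 / 4 * (1 / 2) ^ ρ := ⟨_, rfl⟩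
  have hm4 : (p : ℝ) * (1 / 2) ^ (ρ + 4 + p) ≤ (1 / 2) ^ ρ / 8 := by
    have h1 : (p : ℝ) ≤ 2 ^ p := by exact_mod_cast (Nat.lt_two_pow_self (n := p)).le
    have h2 : (2 : ℝ) ^ p * (1 / 2) ^ p = 1 := by
      rw [← mul_pow]
      norm_num
    have h3 : (p : ℝ) * (1 / 2) ^ p ≤ 1 := by
      calc (p : ℝ) * (1 / 2) ^ p ≤ 2 ^ p * (1 / 2) ^ p :=
            mul_le_mul_of_nonneg_right h1 (by positivity)
        _ = 1 := h2
    have h4 : (p : ℝ) * (1 / 2) ^ (ρ + 4 + p) = (p * (1 / 2) ^ p) * ((1 / 2) ^ ρ / 16) := by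
      rw [pow_add, pow_add]
      ring
    rw [h4]
    have h5 : (p * (1 / 2 : ℝ) ^ p) * ((1 / 2) ^ ρ / 16) ≤ 1 * ((1 / 2) ^ ρ / 16) :=
      mul_le_mul_of_nonneg_right h3 (by positivity : (0 : ℝ) ≤ (1 / 2) ^ ρ / 16)
    linarith
  set E : Ω → Prop := fun ω => DL μ z c R (j + T) ω with hE
  have hEc : ∀ ω ω', fl n (z ω) = fl n (z ω') → E ω = E ω' := fun ω ω' h =>
    clo_DL_congr μ z c hj h
  set Ψ : Prop × (Ω → ℝ) × (Fin p → ℤ) → (Fin 2 → Fin p → ℤ) → ℝ := fun g d =>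
    if g.1 then naP g.2.1 (fun ω' => frP j (Y ω')) r1 (Uo (ρ + 4 + p) (d 0) (d 1)) else 0 with hΨ
  set G1 : Ω × Ω → Prop × (Ω → ℝ) × (Fin p → ℤ) := fun w => (E w.2, lwP μ Y j w.2, cel l (X w.2))
    with hG1
  have lw0 : ∀ ω ω', 0 ≤ lwP μ Y j ω ω' := fun ω ω' => cw_nonneg μ _ hμ ω ω'
  have lw1 : ∀ ω, μ ω ≠ 0 → ∑ ω', lwP μ Y j ω ω' = 1 := fun ω h => cw_sum μ _ hμ ω h
  have h01 : ∀ w, μ' w ≠ 0 → ∀ d, 0 ≤ Ψ (G1 w) d ∧ Ψ (G1 w) d ≤ 1 := by
    intro w h d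
    have h2 := (cp_supp μ hμ G h).2.2
    simp only [hΨ, hG1]
    split_ifs
    · exact ⟨naP_nonneg _ (lw0 w.2) _ _ _, naP_le_one _ (lw0 w.2) (lw1 w.2 h2) _ _ _⟩
    · exact ⟨le_rfl, zero_le_one⟩
  have hgib := clo_gibbs μ' nn hm' (cD X (l + (ρ + 4 + p))) G1 (fun _ g => g.2.2) Ψ h01
  -- the product law
  have hQ : ∑ ω, μ ω * (if DL μ z c R (j + T) ω then slP μ Y X j l ρ ω else 0) ≤
      ∑ w, μ' w * EQ μ' (hg (fun _ g => g.2.2) G1) w
        (fun a => Ψ (G1 w) (fun i => cD X (l + (ρ + 4 + p)) i (a i))) := by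
    rw [← cp_sum2 μ hμ G (fun ω => if DL μ z c R (j + T) ω then slP μ Y X j l ρ ω else 0)]
    refine Finset.sum_le_sum fun w _ => ?_
    by_cases h0 : μ' w = 0
    · rw [← hμ', h0, zero_mul, zero_mul]
    refine mul_le_mul_of_nonneg_left ?_ (nn w)
    have hw2 := (cp_supp μ hμ G h0).2.2
    have h1 := clo_EQ μ hμ G (fun ω => cel l (X ω)) (fun ω ω' h => (cG_eq h).2.2)
      (hg (fun (_ : Fin 2) (g : Prop × (Ω → ℝ) × (Fin p → ℤ)) => g.2.2) G1) (fun _ _ => rfl) h0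
      (fun ω1 ω2 => if E w.2 then naP (lwP μ Y j w.2) (fun ω' => frP j (Y ω')) r1
        (Uo (ρ + 4 + p) (cel (l + (ρ + 4 + p)) (X ω1)) (cel (l + (ρ + 4 + p)) (X ω2))) else 0)
    have h2 : EQ μ' (hg (fun (_ : Fin 2) (g : Prop × (Ω → ℝ) × (Fin p → ℤ)) => g.2.2) G1) w
        (fun a => Ψ (G1 w) (fun i => cD X (l + (ρ + 4 + p)) i (a i))) =
        EQ μ' (hg (fun (_ : Fin 2) (g : Prop × (Ω → ℝ) × (Fin p → ℤ)) => g.2.2) G1) w
          (fun a : Fin 2 → Ω × Ω => if E w.2 then naP (lwP μ Y j w.2)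
          (fun ω' => frP j (Y ω')) r1 (Uo (ρ + 4 + p) (cel (l + (ρ + 4 + p)) (X (a 0).2))
            (cel (l + (ρ + 4 + p)) (X (a 1).1))) else 0) := rfl
    rw [h2]
    refine le_trans ?_ (le_of_eq h1.symm)
    by_cases hEw : E w.2
    · simp only [if_pos hEw]
      rw [if_pos hEw]
      unfold slP nasP
      refine Finset.sum_le_sum fun ω1 _ => ?_
      by_cases c1 : cw μ (fun ω => cel l (X ω)) w.2 ω1 = 0
      · unfold lwP
        rw [c1, zero_mul, zero_mul]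
      refine mul_le_mul_of_nonneg_left ?_ (cw_nonneg μ _ hμ _ _)
      refine Finset.sum_le_sum fun ω2 _ => ?_
      by_cases c2 : cw μ (fun ω => cel l (X ω)) w.2 ω2 = 0
      · unfold lwP
        rw [c2, zero_mul, zero_mul]
      refine mul_le_mul_of_nonneg_left ?_ (cw_nonneg μ _ hμ _ _)
      have d1 := (cw_ne_zero μ _ c1).1
      have d2 := (cw_ne_zero μ _ c2).1
      refine clo_na_le _ (lw0 w.2) _ (fun ω' _ i => clo_fr01 j (Y ω') i) ?_
      have h3 := clo_Uo l (ρ + 4 + p) (d1.trans d2.symm)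
      have h3 := h3.trans hm4
      rw [hr1]
      linarith
    · simp only [if_neg hEw]
      rw [if_neg hEw]
      simp
  -- the joint law
  have hP : ∑ w, μ' w * Ψ (G1 w) (fun i => cD X (l + (ρ + 4 + p)) i w) ≤
      a + Pw μ' (KE μ' z X Y c a R s j T) := by
    have h1 : ∀ w, μ' w * Ψ (G1 w) (fun i => cD X (l + (ρ + 4 + p)) i w) ≤
        μ' w * a + (if KE μ' z X Y c a R s j T w then μ' w else 0) := by
      intro w
      by_cases h0 : μ' w = 0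
      · rw [h0]
        simp
      have hw2 := (cp_supp μ hμ G h0).2.2
      have hcel : cel l (X w.2) = cel l (X w.1) := (cG_eq (cp_supp μ hμ G h0).1).2.2.symm
      by_cases hK : KE μ' z X Y c a R s j T w
      · rw [if_pos hK]
        have h2 := mul_le_mul_of_nonneg_left (h01 w h0 (fun i => cD X (l + (ρ + 4 + p)) i w)).2 (nn w)
        have h3 := mul_nonneg (nn w) ha
        linarith
      rw [if_neg hK, add_zero]
      refine mul_le_mul_of_nonneg_left ?_ (nn w)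
      by_cases hEw : E w.2
      swap
      · simp only [hΨ, hG1]
        rw [if_neg hEw]
        exact ha
      have h2 : Ψ (G1 w) (fun i => cD X (l + (ρ + 4 + p)) i w) =
          naP (lwP μ Y j w.2) (fun ω' => frP j (Y ω')) r1
            (Uo (ρ + 4 + p) (cel (l + (ρ + 4 + p)) (X w.2)) (cel (l + (ρ + 4 + p)) (X w.1))) := by
        simp only [hΨ, hG1]
        rw [if_pos hEw]
        rfl
      rw [h2]
      have h3 : naP (lwP μ Y j w.2) (fun ω' => frP j (Y ω')) r1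
            (Uo (ρ + 4 + p) (cel (l + (ρ + 4 + p)) (X w.2)) (cel (l + (ρ + 4 + p)) (X w.1))) ≤
          naP (lwP μ Y j w.2) (fun ω' => frP j (Y ω')) ((1 / 2) ^ (ρ + 1))
            (frP l (X w.2) - frP l (X w.1)) := by
        refine clo_na_le _ (lw0 w.2) _ (fun ω' _ i => clo_fr01 j (Y ω') i) ?_
        have h4 := clo_Uo l (ρ + 4 + p) hcel
        have h4 := h4.trans hm4
        have h5 := nP1_swap (Uo (ρ + 4 + p) (cel (l + (ρ + 4 + p)) (X w.2)) (cel (l + (ρ + 4 + p)) (X w.1)))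
          (frP l (X w.2) - frP l (X w.1))
        rw [h5, hr1, pow_succ]
        linarith
      refine h3.trans ?_
      by_contra hlt
      push Not at hlt
      apply hK
      refine ⟨(clo_DL μ hμ G z c R (j + T) w).2 hEw, fun x => ?_⟩
      have h6 := clo_Pw μ hμ G (fun ω => cel j (Y ω)) w
        (fun ω' => (1 / 2 : ℝ) ^ (j + T) < |dp (X w.2 - X w.1) (Y ω') / 2 ^ s - x|)
      rw [← hμ'] at h6
      rw [h6]
      refine hlt.le.trans ?_
      refine (naP_le (lwP μ Y j w.2) (fun ω' => frP j (Y ω')) ((1 / 2) ^ (ρ + 1))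
        (frP l (X w.2) - frP l (X w.1)) (2 ^ (s + l + j) * x -
          dp (ivP (cel j (Y w.2))) (frP l (X w.2) - frP l (X w.1)))).trans ?_
      refine Pw_mono _ (lw0 w.2) fun ω' h7 h8 => ?_
      have h9 : cel j (Y ω') = cel j (Y w.2) := (cw_ne_zero μ _ h7).1
      exact (clo_ev l j s ρ T hT hcel h9 x).2 h8
    refine (Finset.sum_le_sum fun w _ => h1 w).trans (le_of_eq ?_)
    rw [Finset.sum_add_distrib, ← Finset.sum_mul, hm', one_mul]
    rfl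
  have hTC := clo_TC n s l (ρ + 4 + p) μ hμ z X Y E j hEc
  have h1 : (∑ w, μ' w * Ψ (G1 w) (fun i => cD X (l + (ρ + 4 + p)) i w)) +
      TC μ' (cD X (l + (ρ + 4 + p))) G1 (fun _ g => g.2.2) ≤
      a + Pw μ' (KE μ' z X Y c a R s j T) +
      ((IA μ X (fun ω => (fl n (z ω), Y ω)) l - IA μ X (fun ω => (fl n (z ω), Y ω)) (l + (ρ + 4 + p))) +
      (IA μ X (fun ω => (fl n (z ω + dp (X ω) (Y ω) / 2 ^ s), Y ω)) l -
        IA μ X (fun ω => (fl n (z ω + dp (X ω) (Y ω) / 2 ^ s), Y ω)) (l + (ρ + 4 + p)))) :=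
    add_le_add hP hTC
  exact (hQ.trans hgib).trans (mul_le_mul_of_nonneg_left h1 (by norm_num))

end one

/-! ### assembly -/

theorem clo_cel_sub {p l : ℕ} {x x' : Fin p → ℝ} (h : cel l x = cel l x') (i : Fin p) :
    |(x - x') i| ≤ (1 / 2) ^ l := by
  have h1 : ⌊(2 : ℝ) ^ l * x i⌋ = ⌊(2 : ℝ) ^ l * x' i⌋ := congrFun h i
  have h2 := floor_eq_near h1
  have hp : (0 : ℝ) < 2 ^ l := by positivity
  rw [← mul_sub, abs_mul, abs_of_pos hp] at h2
  rw [Pi.sub_apply, one_div, inv_pow, ← one_div, le_div_iff₀ hp]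
  linarith

open Classical in
theorem clop_core (hK : ST_K) (p : ℕ) (c e : ℝ) (hc : 0 < c) (hc1 : c ≤ 1) (he : 0 < e) (ρ : ℕ) :
    ∃ R0 : ℕ, ∀ R : ℕ, R0 ≤ R →
    ∃ η : ℝ, 0 < η ∧ ∃ n0 : ℕ, ∀ n s : ℕ, n0 ≤ n → ∀ (Ω : Type) [Fintype Ω] (μ : Ω → ℝ)
    (z : Ω → ℝ) (X Y : Ω → Fin p → ℝ), (∀ ω, 0 ≤ μ ω) → mass μ = 1 → (∀ ω, 0 ≤ z ω ∧ z ω < 1) →
    (∀ ω i, |X ω i| ≤ 32) → (∀ ω i, |Y ω i| ≤ 32) →
    (Hh μ (fun ω => fl n (z ω)) ≤ CH μ (fun ω => fl n (z ω)) (fun ω => (X ω, Y ω)) + η * n) →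
    (Hh μ (fun ω => fl n (z ω + dp (X ω) (Y ω) / 2 ^ s)) ≤
      CH μ (fun ω => fl n (z ω + dp (X ω) (Y ω) / 2 ^ s)) (fun ω => (X ω, Y ω)) + η * n) →
    (Hh μ X ≤ CH μ X Y + η * n) →
    ∑ ω, μ ω * ∑ l ∈ range (n + 1), ∑ j ∈ range (n + 1),
      (if l + j + s + (ρ + 1) ≤ n ∧ DL μ z c R (l + j + s + (ρ + 1)) ω then slP μ Y X j l ρ ω else 0) ≤
        e * (n : ℝ) ^ 2 := by
  obtain ⟨R0, hR0⟩ := hK c (e / 16) (e / 16) hc hc1 (by positivity) (by positivity) (ρ + 12 + p)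
  refine ⟨R0, fun R hR => ?_⟩
  obtain ⟨ηK, hηK, nK, hnK⟩ := hR0 R hR
  have hρ : (0 : ℝ) < 64 * ((ρ : ℝ) + 4 + p) := by positivity
  obtain ⟨η, hη⟩ : ∃ η : ℝ, η = min (ηK / 4) (e / (64 * ((ρ : ℝ) + 4 + p))) := ⟨_, rfl⟩
  have hη0 : 0 < η := by
    rw [hη]
    exact lt_min (by positivity) (by positivity)
  have hη1 : η ≤ ηK / 4 := by
    rw [hη]
    exact min_le_left _ _
  have hη2 : η * (64 * ((ρ : ℝ) + 4 + p)) ≤ e := by
    have : η ≤ e / (64 * ((ρ : ℝ) + 4 + p)) := by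
      rw [hη]
      exact min_le_right _ _
    rwa [le_div_iff₀ hρ] at this
  refine ⟨η, hη0, max nK (⌈3 / ηK⌉₊ + 1), fun n s hn Ω _ μ z X Y hμ hm zb xb yb i1 i2 i3 => ?_⟩
  have hn1 : nK ≤ n := (le_max_left _ _).trans hn
  have hn2 : ⌈3 / ηK⌉₊ + 1 ≤ n := (le_max_right _ _).trans hn
  have hn3 : 3 ≤ ηK * n := by
    have h1 : (3 / ηK : ℝ) ≤ n := by
      refine (Nat.le_ceil _).trans ?_
      exact_mod_cast (Nat.le_succ _).trans hn2
    rw [div_le_iff₀ hηK] at h1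
    linarith
  have hn4 : (1 : ℝ) ≤ n := by
    have : 1 ≤ n := by omega
    exact_mod_cast this
  obtain ⟨W1, hW1⟩ : ∃ W1 : Ω → ℤ × (Fin p → ℝ), W1 = fun ω => (fl n (z ω), Y ω) := ⟨_, rfl⟩
  obtain ⟨W2, hW2⟩ : ∃ W2 : Ω → ℤ × (Fin p → ℝ),
    W2 = fun ω => (fl n (z ω + dp (X ω) (Y ω) / 2 ^ s), Y ω) := ⟨_, rfl⟩
  obtain ⟨τ, hτ⟩ : ∃ τ : ℕ → ℝ, τ = fun l => (IA μ X W1 l - IA μ X W1 (l + (ρ + 4 + p))) +
    (IA μ X W2 l - IA μ X W2 (l + (ρ + 4 + p))) := ⟨_, rfl⟩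
  have hτ0 : ∀ l, 0 ≤ τ l := by
    intro l
    rw [hτ]
    exact add_nonneg (IA_anti μ hμ X W1 l (ρ + 4 + p)) (IA_anti μ hμ X W2 l (ρ + 4 + p))
  have hτs : ∑ l ∈ range (n + 1), τ l ≤ 4 * ((ρ : ℝ) + 4 + p) * (η * n) := by
    have a1 : ∀ l, IA μ X W1 l ≤ η * n + η * n := by
      intro l
      refine (IA_le μ hμ X W1 l).trans ?_
      rw [hW1]
      exact clo_info μ hμ X Y _ i1 i3
    have a2 : ∀ l, IA μ X W2 l ≤ η * n + η * n := by
      intro l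
      refine (IA_le μ hμ X W2 l).trans ?_
      rw [hW2]
      exact clo_info μ hμ X Y _ i2 i3
    have b1 := clo_tel (IA μ X W1) _ (IA_nonneg μ hμ X W1) a1 (ρ + 4 + p) (n + 1)
    have b2 := clo_tel (IA μ X W2) _ (IA_nonneg μ hμ X W2) a2 (ρ + 4 + p) (n + 1)
    rw [hτ, Finset.sum_add_distrib]
    push_cast at b1 b2
    linarith
  obtain ⟨P, hP⟩ : ∃ P : ℕ → ℕ → ℝ, P = fun l j => Pw (cop2 μ (cG n s l z X Y))
    (KE (cop2 μ (cG n s l z X Y)) z X Y c (e / 16) R s j (s + l + ρ + 1)) := ⟨_, rfl⟩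
  -- LEMMA K
  have hKl : ∀ l, ∑ j ∈ range (n + 1 - (s + l + ρ + 1)), P l j ≤ e / 16 * n := by
    intro l
    rw [hP]
    have nn := cp_nn μ hμ (cG n s l z X Y)
    refine hnK n (s + l + ρ + 1) hn1 (Ω × Ω) ((Fin p → ℝ) × (Fin p → ℝ)) (Fin p → ℝ) (Fin p → ℤ)
      (cop2 μ (cG n s l z X Y)) (fun w => z w.2) (fun w => (X w.2, X w.1)) (fun w => Y w.2)
      (fun ζ y => dp (ζ.1 - ζ.2) y / 2 ^ s) (fun j y => cel j y) nn
      ((cp_mass μ hμ _).trans hm) (fun w => zb w.2) ?_ ?_ ?_ ?_ ?_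
    · intro w w' _ _
      have h1 : ∀ i, |(X w.2 - X w.1) i| ≤ 64 := by
        intro i
        have h2 := abs_sub (X w.2 i) (X w.1 i)
        have h3 := xb w.2 i
        have h4 := xb w.1 i
        rw [Pi.sub_apply]
        linarith
      have h2 := dp_abs_le _ _ h1 (yb w'.2) (by norm_num)
      have h3 : (1 : ℝ) ≤ 2 ^ s := one_le_pow₀ (by norm_num)
      have h4 : (1 : ℝ) ≤ 2 ^ ρ := one_le_pow₀ (by norm_num)
      have h5 : (2 : ℝ) ^ (ρ + 12 + p) = 2 ^ ρ * 4096 * 2 ^ p := by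
        rw [pow_add, pow_add]
        norm_num
      have h6 : (p : ℝ) ≤ 2 ^ p := by exact_mod_cast (Nat.lt_two_pow_self (n := p)).le
      have h7 : (p : ℝ) * (64 * 32) ≤ 2 ^ ρ * 4096 * 2 ^ p := by
        have h8 : (4096 : ℝ) ≤ 2 ^ ρ * 4096 := by linarith
        have h9 : (0 : ℝ) < 2 ^ p := by positivity
        nlinarith
      have h10 : (0 : ℝ) ≤ 2 ^ ρ * 4096 * 2 ^ p := by positivity
      rw [abs_div, abs_of_pos (by positivity : (0 : ℝ) < 2 ^ s), div_le_iff₀ (by positivity), h5]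
      refine (h2.trans h7).trans ?_
      exact le_mul_of_one_le_right h10 h3
    · intro j w w' _ _ h
      exact clo_cel_ref (Nat.le_succ j) h
    · intro j w0 w w' h0 _ _ h
      have h1 := (cG_eq (cp_supp μ hμ _ h0).1).2.2
      have h2 := dp_abs_le _ _ (clo_cel_sub h1.symm) (clo_cel_sub h) (by positivity)
      have e1 : dp ((X w0.2, X w0.1).1 - (X w0.2, X w0.1).2) (Y w.2) / 2 ^ s -
          dp ((X w0.2, X w0.1).1 - (X w0.2, X w0.1).2) (Y w'.2) / 2 ^ s =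
          dp (X w0.2 - X w0.1) (Y w.2 - Y w'.2) / 2 ^ s := by
        rw [dp_sub_right]
        ring
      rw [e1, abs_div, abs_of_pos (by positivity : (0 : ℝ) < 2 ^ s)]
      have e2 : (2 : ℝ) ^ (j + (s + l + ρ + 1)) = 2 ^ s * (2 ^ l * 2 ^ j * 2 ^ (ρ + 1)) := by
        rw [← pow_add, ← pow_add, ← pow_add]
        congr 1
        ring
      have e3 : |dp (X w0.2 - X w0.1) (Y w.2 - Y w'.2)| / 2 ^ s * 2 ^ (j + (s + l + ρ + 1)) =
          |dp (X w0.2 - X w0.1) (Y w.2 - Y w'.2)| * (2 ^ l * 2 ^ j * 2 ^ (ρ + 1)) := by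
        rw [e2]
        field_simp
      have e4 : p * ((1 / 2 : ℝ) ^ l * (1 / 2) ^ j) * (2 ^ l * 2 ^ j * 2 ^ (ρ + 1)) =
          p * 2 ^ (ρ + 1) := by
        have f1 : ∀ k : ℕ, (1 / 2 : ℝ) ^ k * 2 ^ k = 1 := by
          intro k
          rw [← mul_pow]
          norm_num
        calc p * ((1 / 2 : ℝ) ^ l * (1 / 2) ^ j) * (2 ^ l * 2 ^ j * 2 ^ (ρ + 1))
            = ((1 / 2 : ℝ) ^ l * 2 ^ l) * ((1 / 2) ^ j * 2 ^ j) * (p * 2 ^ (ρ + 1)) := by ring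
          _ = p * 2 ^ (ρ + 1) := by
            rw [f1, f1]
            ring
      rw [e3]
      refine (mul_le_mul_of_nonneg_right h2 (by positivity)).trans ?_
      rw [e4]
      have h6 : (p : ℝ) ≤ 2 ^ p := by exact_mod_cast (Nat.lt_two_pow_self (n := p)).le
      refine (mul_le_mul_of_nonneg_right h6 (by positivity)).trans ?_
      rw [← pow_add]
      exact pow_le_pow_right₀ (by norm_num) (by omega)
    · have h1 := clo_tc n s l μ hμ z X Y i1 i2 i3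
      have h2 : 4 * (η * n) ≤ ηK * n := by nlinarith
      linarith
    · have h1 := clo_abs n s l μ hμ hm z X Y
      have h2 : Hh (cop2 μ (cG n s l z X Y)) (fun w => fl n (z w.2)) = Hh μ (fun ω => fl n (z ω)) :=
        cp_CH2 μ hμ _ (fun ω => fl n (z ω)) (fun _ => ())
      rw [h2]
      exact h1.trans (by linarith)
  -- one pair of levels
  have h1 : ∀ l j, ∑ ω, μ ω * (if l + j + s + (ρ + 1) ≤ n ∧ DL μ z c R (l + j + s + (ρ + 1)) ω
      then slP μ Y X j l ρ ω else 0) ≤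
      8 / 5 * (e / 16 + τ l) + 8 / 5 * (if j + (s + l + ρ + 1) ≤ n then P l j else 0) := by
    intro l j
    rw [show l + j + s + (ρ + 1) = j + (s + l + ρ + 1) by omega]
    by_cases hj : j + (s + l + ρ + 1) ≤ n
    · rw [if_pos hj]
      have h2 := clo_one n s l j ρ R c (e / 16) μ hμ hm z X Y (by positivity) hj
      have h3 : ∀ ω, (if j + (s + l + ρ + 1) ≤ n ∧ DL μ z c R (j + (s + l + ρ + 1)) ω
          then slP μ Y X j l ρ ω else 0) =
          (if DL μ z c R (j + (s + l + ρ + 1)) ω then slP μ Y X j l ρ ω else 0) := by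
        intro ω
        simp only [hj, true_and]
      simp only [h3]
      rw [hτ, hP, hW1, hW2]
      linarith
    · rw [if_neg hj]
      have h3 : ∀ ω, (if j + (s + l + ρ + 1) ≤ n ∧ DL μ z c R (j + (s + l + ρ + 1)) ω
          then slP μ Y X j l ρ ω else 0) = 0 := by
        intro ω
        rw [if_neg (fun h => hj h.1)]
      simp only [h3, mul_zero, Finset.sum_const_zero, add_zero]
      have := hτ0 l
      positivity
  have h2 : ∀ l, ∑ j ∈ range (n + 1), ∑ ω, μ ω * (if l + j + s + (ρ + 1) ≤ n ∧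
      DL μ z c R (l + j + s + (ρ + 1)) ω then slP μ Y X j l ρ ω else 0) ≤
      (n + 1) * (8 / 5 * (e / 16 + τ l)) + 8 / 5 * (e / 16 * n) := by
    intro l
    refine (Finset.sum_le_sum fun j _ => h1 l j).trans ?_
    rw [Finset.sum_add_distrib, Finset.sum_const, card_range, nsmul_eq_mul, ← Finset.mul_sum,
      ← Finset.sum_filter]
    have h3 : (range (n + 1)).filter (fun j => j + (s + l + ρ + 1) ≤ n) =
        range (n + 1 - (s + l + ρ + 1)) := by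
      ext j
      simp only [mem_filter, mem_range]
      omega
    rw [h3]
    have h4 := hKl l
    rw [Nat.cast_add, Nat.cast_one]
    linarith
  have h3 : ∑ ω, μ ω * ∑ l ∈ range (n + 1), ∑ j ∈ range (n + 1),
      (if l + j + s + (ρ + 1) ≤ n ∧ DL μ z c R (l + j + s + (ρ + 1)) ω then slP μ Y X j l ρ ω
        else 0) = ∑ l ∈ range (n + 1), ∑ j ∈ range (n + 1), ∑ ω, μ ω *
      (if l + j + s + (ρ + 1) ≤ n ∧ DL μ z c R (l + j + s + (ρ + 1)) ω then slP μ Y X j l ρ ω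
        else 0) := by
    simp only [Finset.mul_sum]
    rw [Finset.sum_comm]
    refine Finset.sum_congr rfl fun l _ => ?_
    rw [Finset.sum_comm]
  have h4 : ∑ l ∈ range (n + 1), ((n + 1) * (8 / 5 * (e / 16 + τ l)) + 8 / 5 * (e / 16 * n)) ≤
      e * (n : ℝ) ^ 2 := by
    have e1 : ∑ l ∈ range (n + 1), (((n : ℝ) + 1) * (8 / 5 * (e / 16 + τ l)) + 8 / 5 * (e / 16 * n))
        = (n + 1) * (8 / 5) * ((n + 1) * (e / 16) + ∑ l ∈ range (n + 1), τ l)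
          + (n + 1) * (8 / 5 * (e / 16 * n)) := by
      rw [Finset.sum_add_distrib, ← Finset.mul_sum, ← Finset.mul_sum, Finset.sum_add_distrib,
        Finset.sum_const, Finset.sum_const, card_range, nsmul_eq_mul, nsmul_eq_mul]
      push_cast
      ring
    rw [e1]
    have h5 : 4 * ((ρ : ℝ) + 4 + p) * (η * n) ≤ e / 16 * n := by nlinarith
    have h6 : ∑ l ∈ range (n + 1), τ l ≤ e / 16 * n := hτs.trans h5
    have h7 : ((n : ℝ) + 1) * (8 / 5) * ((n + 1) * (e / 16) + ∑ l ∈ range (n + 1), τ l) ≤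
        ((n : ℝ) + 1) * (8 / 5) * ((n + 1) * (e / 16) + e / 16 * n) :=
      mul_le_mul_of_nonneg_left (by linarith) (by positivity)
    have h8 : ((n : ℝ) + 1) * (8 / 5) * ((n + 1) * (e / 16) + e / 16 * n) +
        (n + 1) * (8 / 5 * (e / 16 * n)) ≤ e * (n : ℝ) ^ 2 := by
      have h9 : ((n : ℝ) + 1) * (8 / 5) * ((n + 1) * (e / 16) + e / 16 * n) +
        (n + 1) * (8 / 5 * (e / 16 * n)) = e * ((n + 1) * (3 * n + 1) / 10) := by ring
      rw [h9]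
      refine mul_le_mul_of_nonneg_left ?_ he.le
      nlinarith
    linarith
  rw [h3]
  exact (Finset.sum_le_sum fun l _ => h2 l).trans h4

/-- **MODULE CLOP** -/
theorem st_CLOP (hK : ST_K) : ST_CLOP := by
  intro g k c e hc hc1 he ρ
  obtain ⟨R0, hR0⟩ := clop_core hK (g + k) c e hc hc1 he ρ
  refine ⟨R0, fun R hR => ?_⟩
  obtain ⟨η, hη, n0, hn0⟩ := hR0 R hR
  exact ⟨η, hη, n0, fun n s hn Ω _ μ z X Y C =>
    hn0 n s hn Ω μ z X Y C.nn C.ms C.zb C.xb C.yb C.i1 C.i2 C.i3⟩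

end Pool.Agent.Helper46.WP
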